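import Pool.Agent.W205.K5.Stm

/-!
# K5-TWOIID: from two-point data to i.i.d. variables (mixtures)
-/

set_option autoImplicit false

namespace Pool.Agent.W654.K5

open Finset Pool.Agent.W205.K5 Pool.Agent.W890.SF Pool.Agent.W593.IR

theorem sum_prod_pi {P : Type} [Fintype P] (π : P → ℝ) (h : ∑ p, π p = 1) (n : ℕ) :
    ∑ p : Fin n → P, ∏ i, π (p i) = 1 := by
  classical
  have h1 := Finset.prod_univ_sum (fun _ : Fin n => (univ : Finset P)) (fun _ p => π p)
  rw [Fintype.piFinset_univ] at h1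
  rw [← h1]
  simp [h]

theorem sum_init {P : Type} [Fintype P] (π : P → ℝ) (h : ∑ p, π p = 1) (r : ℕ)
    (F : (Fin r → P) → ℝ) :
    ∑ p : Fin r → P, (∏ i, π (p i)) * F p =
      ∑ p : Fin (r + 1) → P, (∏ i, π (p i)) * F (fun i => p i.castSucc) := by
  classical
  rw [← Equiv.sum_comp (Fin.snocEquiv (fun _ : Fin (r + 1) => P))
    (fun p : Fin (r + 1) → P => (∏ i, π (p i)) * F (fun i => p i.castSucc))]
  rw [Fintype.sum_prod_type, Finset.sum_comm]
  refine Finset.sum_congr rfl (fun q _ => ?_)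
  have h2 : ∀ p : P, (∏ i, π ((Fin.snocEquiv (fun _ : Fin (r + 1) => P)) (p, q) i)) *
      F (fun i => (Fin.snocEquiv (fun _ : Fin (r + 1) => P)) (p, q) i.castSucc) =
      π p * ((∏ i, π (q i)) * F q) := by
    intro p
    rw [Fin.prod_univ_castSucc]
    simp only [Fin.snocEquiv, Equiv.coe_fn_mk, Fin.snoc_castSucc, Fin.snoc_last]
    ring
  rw [Finset.sum_congr rfl (fun p _ => h2 p), ← Finset.sum_mul, h, one_mul]

theorem sum_castLE {P : Type} [Fintype P] (π : P → ℝ) (h : ∑ p, π p = 1) (j k : ℕ) (hjk : j ≤ k)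
    (F : (Fin j → P) → ℝ) :
    ∑ p : Fin j → P, (∏ i, π (p i)) * F p =
      ∑ p : Fin k → P, (∏ i, π (p i)) * F (fun i => p (Fin.castLE hjk i)) := by
  induction k, hjk using Nat.le_induction with
  | base => rfl
  | succ k hk ih =>
    rw [ih, sum_init π h k (fun p => F (fun i => p (Fin.castLE hk i)))]
    rfl

/-- extension of data by zero -/
noncomputable def ex {P : Type} {k : ℕ} (a : P → ℝ) (p : Fin k → P) (i : ℕ) : ℝ :=
  if h : i < k then a (p ⟨i, h⟩) else 0

theorem ex_eq {P : Type} {k : ℕ} (a : P → ℝ) (p : Fin k → P) (i : ℕ) (h : i < k) :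
    ex a p i = a (p ⟨i, h⟩) := by
  unfold ex
  rw [dif_pos h]

theorem ex_fun {P : Type} {k : ℕ} (a : P → ℝ) (p : Fin k → P) (j : ℕ) (h : j ≤ k) :
    (fun i : Fin j => ex a p i) = fun i : Fin j => a (p (Fin.castLE h i)) := by
  funext i
  rw [ex_eq a p i (lt_of_lt_of_le i.2 h)]
  rfl

theorem binom (k : ℕ) (ρ : ℝ) :
    ∑ j ∈ range (k + 1), (k.choose j : ℝ) * (1 - ρ) ^ (k - j) * ρ ^ j = 1 := by
  have h := add_pow ρ (1 - ρ) k
  rw [add_sub_cancel, one_pow] at h
  refine Eq.trans (Finset.sum_congr rfl fun j _ => ?_) h.symm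
  ring

theorem const_case (k : ℕ) (hk : 2 ≤ k) (V : Type) [Fintype V] [Nonempty V] (y : V → ℝ)
    (hc : ∀ v, y v = 1 / (k : ℝ)) (ρ : ℝ) :
    Th k ρ (fun j => (NL y j : ℝ) / (Fintype.card V : ℝ) ^ j) = 1 - ρ ^ k := by
  have hk0 : (0 : ℝ) < k := by exact_mod_cast (by omega : 0 < k)
  have hN : (0 : ℝ) < (Fintype.card V : ℝ) := by exact_mod_cast Fintype.card_pos
  have hs : ∀ (j : ℕ) (f : Fin j → V), ∑ i, y (f i) = (j : ℝ) / k := by
    intro j f
    rw [Finset.sum_congr rfl (fun i _ => hc (f i)), Finset.sum_const, Finset.card_univ,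
      Fintype.card_fin, nsmul_eq_mul, mul_one_div]
  have h1 : ∀ j < k, (NL y j : ℝ) / (Fintype.card V : ℝ) ^ j = 1 := by
    intro j hj
    have : {f : Fin j → V | ∑ i, y (f i) < 1} = Set.univ := by
      ext f
      simp only [Set.mem_ofPred_eq, Set.mem_univ, iff_true]
      rw [hs, div_lt_one hk0]
      exact_mod_cast hj
    unfold NL
    rw [this, Set.ncard_univ, Nat.card_eq_fintype_card, Fintype.card_fun, Fintype.card_fin]
    push_cast
    exact div_self (pow_pos hN j).ne'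
  have h2 : (NL y k : ℝ) / (Fintype.card V : ℝ) ^ k = 0 := by
    have : {f : Fin k → V | ∑ i, y (f i) < 1} = ∅ := by
      ext f
      simp only [Set.mem_ofPred_eq, Set.mem_empty_iff_false, iff_false, not_lt]
      rw [hs, div_self hk0.ne']
    unfold NL
    rw [this, Set.ncard_empty]
    simp
  unfold Th
  beta_reduce
  rw [Finset.sum_range_succ, h2, mul_zero, add_zero]
  have h3 := binom k ρ
  rw [Finset.sum_range_succ] at h3
  rw [Finset.sum_congr rfl (fun j hj => by rw [h1 j (Finset.mem_range.mp hj), mul_one])]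
  have h4 : (k.choose k : ℝ) * (1 - ρ) ^ (k - k) * ρ ^ k = ρ ^ k := by simp
  rw [h4] at h3
  linarith

theorem twoiid (h1 : S_MIX1) (h2 : S_MIX2) : S_TWOIID := by
  intro k hk hTWO V _ _ y hy hsum ρ hρ0 hρ1 hρ
  have hk0 : (0 : ℝ) < k := by exact_mod_cast (by omega : 0 < k)
  have hN : (0 : ℝ) < (Fintype.card V : ℝ) := by exact_mod_cast Fintype.card_pos
  by_cases hc : ∀ v, y v = 1 / (k : ℝ)
  · exact (const_case k hk V y hc ρ).ge
  · push Not at hc
    have hm : ∑ v, y v = 1 / (k : ℝ) * (Fintype.card V : ℝ) := by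
      rw [← hsum]
      field_simp
    obtain ⟨P, iP, π, a, b, q, hπ, hπ1, hab, hφ, -⟩ := h2 V y (1 / (k : ℝ)) hy hm hc
    have e : ∀ j ∈ range (k + 1), (NL y j : ℝ) / (Fintype.card V : ℝ) ^ j =
        ∑ p : Fin k → P, (∏ i, π (p i)) * Wn (ex a p) (ex b p) (ex q p) j := by
      intro j hj
      have hjk : j ≤ k := by
        have := Finset.mem_range.mp hj
        omega
      have e1 := h1 V P y π a b q hφ j
      unfold NL
      rw [e1, mul_div_cancel_left₀ _ (pow_pos hN j).ne']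
      rw [sum_castLE π hπ1 j k hjk
        (fun p => PP (fun i => a (p i)) (fun i => b (p i)) (fun i => q (p i)))]
      refine Finset.sum_congr rfl fun p _ => ?_
      unfold Wn
      rw [ex_fun a p j hjk, ex_fun b p j hjk, ex_fun q p j hjk]
    have hTD : ∀ p : Fin k → P, TD k (ex a p) (ex b p) (ex q p) := by
      intro p i hi
      rw [ex_eq a p i hi, ex_eq b p i hi, ex_eq q p i hi]
      exact hab _
    have hTh : Th k ρ (fun j => (NL y j : ℝ) / (Fintype.card V : ℝ) ^ j) =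
        ∑ p : Fin k → P, (∏ i, π (p i)) * Th k ρ (Wn (ex a p) (ex b p) (ex q p)) := by
      unfold Th
      beta_reduce
      rw [Finset.sum_congr rfl (fun j hj => by rw [e j hj, Finset.mul_sum])]
      rw [Finset.sum_comm]
      refine Finset.sum_congr rfl fun p _ => ?_
      rw [Finset.mul_sum]
      refine Finset.sum_congr rfl fun j _ => ?_
      ring
    rw [hTh]
    have h7 := sum_prod_pi π hπ1 k
    calc 1 - ρ ^ k = ∑ p : Fin k → P, (∏ i, π (p i)) * (1 - ρ ^ k) := by
          rw [← Finset.sum_mul, h7, one_mul]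
      _ ≤ _ := by
          refine Finset.sum_le_sum fun p _ => ?_
          exact mul_le_mul_of_nonneg_left (hTWO _ _ _ (hTD p) ρ hρ0 hρ1 hρ)
            (Finset.prod_nonneg fun i _ => (hπ (p i)).le)

end Pool.Agent.W654.K5
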